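import Pool.Agent.Lib.MP_b041da_pr.Layer

set_option autoImplicit false

namespace Pool.Agent.Results.MP_b041da_pr.ForestRate

open Filter Topology Pool.Agent.Lib.MP_b041da_pr

theorem result (d : ℕ) (hd : 3 ≤ d) (s K : ℝ) (hs : s < d - 1)
    (ρ : (Fin d → ℤ) → Fin d × Bool)
    (hcyc : (Function.periodicPts (target ρ)).Finite)
    (hgrow : ∀ (y : Fin d → ℤ) (r : ℕ), 1 ≤ r →
      (({x | Merge ρ x y ∧ ∀ i, |x i| ≤ r}.ncard : ℕ) : ℝ) ≤ K * (r : ℝ) ^ s) :
    ∃ C : ℝ, ∀ m : (Fin d → ℤ) → Equiv.Perm (Fin d × Bool), (∀ x, (m x).IsCycleOn Set.univ) →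
      ∀ n : ℕ, |(escaped m ρ n : ℝ) - alpha d * n| ≤ C * (n : ℝ) ^ (1 / (d - s)) := by
  classical
  have hd0 : 0 < d := by omega
  obtain ⟨κ, hκ, hgrad⟩ := exists_grad hd
  have hK : 0 ≤ K := by
    have := hgrow 0 1 le_rfl
    simp only [Nat.cast_one, Real.one_rpow, mul_one] at this
    exact le_trans (Nat.cast_nonneg _) this
  set A : ℝ := 2 ^ d * (3 * 2 ^ d + K / (d - s - 1)) with hA
  have hA0 : 0 ≤ A := by
    have : 0 ≤ K / (d - s - 1) := div_nonneg hK (by linarith)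
    positivity
  set θ : ℝ := 1 / (d - s) with hθ
  have hθ0 : 0 < θ := one_div_pos.2 (by linarith)
  set P₀ := hcyc.toFinset with hP₀
  refine ⟨8 * d * (κ * (A * (1 + (P₀.card : ℝ)) ^ θ)), fun m hm n => ?_⟩
  rcases Nat.eq_zero_or_pos n with hn | hn
  · subst hn
    simp [escaped, Real.zero_rpow hθ0.ne']
  have hnR : (1 : ℝ) ≤ n := by exact_mod_cast hn
  have key : ∀ f : (Fin d → ℤ) → ℝ, Tendsto f cofinite (𝓝 0) → (∀ x, x ≠ 0 → lap f x ≤ 0) →
      (∀ x e, |f (x + vec e) - f x| ≤ κ * ((1 + nrm x) * ((1 + (nrm x : ℝ)) ^ d)⁻¹)) →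
      -(8 * d * (κ * (A * (1 + (P₀.card : ℝ)) ^ θ)) * (n : ℝ) ^ θ) ≤
        n * lap f 0 + f 0 * escaped m ρ n := by
    intro f hf0 hsup hg
    have h1 := gen_ineq (ρ₀ := ρ) (P₀ := P₀) hd0 hm (fun y hy => hcyc.mem_toFinset.2 hy) f hf0 hsup
      (fun x => by positivity) hg (Λ := fun N => κ * (A * (N : ℝ) ^ θ)) (fun N P hP S => by
        refine le_trans (le_of_eq ?_)
          (mul_le_mul_of_nonneg_left (layer_sum hs hgrow N P hP S) hκ)
        rw [Finset.mul_sum]
        refine Finset.sum_congr rfl fun x _ => ?_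
        split_ifs <;> simp) n
    refine le_trans (neg_le_neg ?_) h1
    have h2 : ((P₀.card + n : ℕ) : ℝ) ^ θ ≤ (1 + (P₀.card : ℝ)) ^ θ * (n : ℝ) ^ θ := by
      rw [← Real.mul_rpow (by positivity) (by positivity)]
      apply Real.rpow_le_rpow (by positivity) _ hθ0.le
      push_cast
      nlinarith [Nat.cast_nonneg (α := ℝ) P₀.card]
    calc _ ≤ 8 * d * (κ * (A * ((1 + (P₀.card : ℝ)) ^ θ * (n : ℝ) ^ θ))) := by gcongr
      _ = _ := by ring
  have h1 := key gg (tendsto_gg hd) (fun x hx => (lap_gg hd0 hx).le) hgrad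
  have hneg : ∀ x : Fin d → ℤ, lap (fun x => -gg x) x = -lap gg x := by
    intro x
    rw [lap, lap, ← neg_div, ← Finset.sum_neg_distrib]
    congr 1
    exact Finset.sum_congr rfl fun e _ => by ring
  have h2 := key (fun x => -gg x) (by simpa using (tendsto_gg hd).neg)
    (fun x hx => by rw [hneg, lap_gg hd0 hx]; simp) (fun x e => by
      rw [← abs_neg]
      convert hgrad x e using 2
      ring)
  rw [hneg] at h2
  rw [lap_gg_zero hd0, gg_zero] at h1 h2
  rw [abs_le]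
  constructor <;> linarith

/-- The aligned configuration satisfies the hypotheses with `s = 1` and `K = 3`. -/
theorem aligned_rate (d : ℕ) (hd : 3 ≤ d) (e₀ : Fin d × Bool) :
    ∃ C : ℝ, ∀ m : (Fin d → ℤ) → Equiv.Perm (Fin d × Bool), (∀ x, (m x).IsCycleOn Set.univ) →
      ∀ n : ℕ, |(escaped m (fun _ => e₀) n : ℝ) - alpha d * n| ≤
        C * (n : ℝ) ^ (1 / ((d : ℝ) - 1)) := by
  have hdR : (3 : ℝ) ≤ d := by exact_mod_cast hd
  have hit : ∀ (k : ℕ) (x : Fin d → ℤ),
      (target (fun _ => e₀))^[k] x = x + (k : ℤ) • vec e₀ := by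
    intro k x
    induction k with
    | zero => simp
    | succ k ih =>
      rw [Function.iterate_succ_apply', ih, target]
      push_cast
      rw [add_smul, one_smul, add_assoc]
  refine result d hd 1 3 (by linarith) _ ?_ ?_
  · refine Set.finite_empty.subset ?_
    rintro x ⟨k, hk, hx⟩
    have h1 : x + (k : ℤ) • vec e₀ = x + (0 : ℤ) • vec e₀ := by
      rw [← hit, zero_smul, add_zero]; exact hx
    have := smul_vec_inj e₀ (add_left_cancel h1)
    omega
  · intro y r hr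
    have h1 : {x | Merge (fun _ => e₀) x y ∧ ∀ i, |x i| ≤ r}.ncard ≤
        (↑(Finset.Icc (-(r : ℤ)) r) : Set ℤ).ncard := by
      refine Set.ncard_le_ncard_of_injOn (fun x => x e₀.1) (fun x hx => ?_) ?_ (Finset.finite_toSet _)
      · exact Finset.mem_coe.2 (Finset.mem_Icc.2 (abs_le.1 (hx.2 e₀.1)))
      · rintro x ⟨⟨i, j, hx⟩, -⟩ x' ⟨⟨i', j', hx'⟩, -⟩ hxx
        rw [hit, hit] at hx hx'
        have h2 := congrArg (col e₀) hx
        have h3 := congrArg (col e₀) hx'
        rw [col_add_smul, col_add_smul] at h2 h3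
        funext l
        by_cases hl : l = e₀.1
        · rw [hl]; exact hxx
        · have := congrFun (h2.trans h3.symm) l
          simpa [col, Function.update_of_ne hl] using this
    rw [Set.ncard_coe_finset, Int.card_Icc] at h1
    have h2 : {x | Merge (fun _ => e₀) x y ∧ ∀ i, |x i| ≤ r}.ncard ≤ 3 * r := by omega
    rw [Real.rpow_one]
    exact_mod_cast h2

/-- The limit asked for in Q1. -/
theorem aligned_limit (d : ℕ) (hd : 3 ≤ d) (m : (Fin d → ℤ) → Equiv.Perm (Fin d × Bool))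
    (hm : ∀ x, (m x).IsCycleOn Set.univ) (e₀ : Fin d × Bool) :
    Tendsto (fun n : ℕ => (escaped m (fun _ => e₀) n : ℝ) / n) atTop (𝓝 (alpha d)) := by
  have hdR : (3 : ℝ) ≤ d := by exact_mod_cast hd
  obtain ⟨C, hC⟩ := aligned_rate d hd e₀
  have hp : 0 < 1 - 1 / ((d : ℝ) - 1) := by
    rw [sub_pos, div_lt_one (by linarith)]; linarith
  have h1 := ((tendsto_rpow_neg_atTop hp).comp tendsto_natCast_atTop_atTop).const_mul C
  rw [mul_zero] at h1
  rw [tendsto_iff_norm_sub_tendsto_zero]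
  refine squeeze_zero' (Eventually.of_forall fun n => norm_nonneg _) ?_ h1
  filter_upwards [eventually_gt_atTop 0] with n hn
  have hnR : (0 : ℝ) < n := by exact_mod_cast hn
  have h2 : (escaped m (fun _ => e₀) n : ℝ) / n - alpha d =
      ((escaped m (fun _ => e₀) n : ℝ) - alpha d * n) / n := by field_simp
  rw [Real.norm_eq_abs, h2, abs_div, abs_of_pos hnR, div_le_iff₀ hnR]
  refine (hC m hm n).trans (le_of_eq ?_)
  simp only [Function.comp]
  rw [mul_assoc, ← Real.rpow_add_one hnR.ne']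
  congr 2; ring

end Pool.Agent.Results.MP_b041da_pr.ForestRate
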